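import Pool.Agent.Work.MP_db9399_oc.Interface

/-!
# MP_db9399, OCB4: block AVB, numbers of available vertices (helper70)
-/

set_option autoImplicit false
set_option linter.unusedSectionVars false

namespace Pool.Agent.Work.MP_db9399_oc_helper70

open Finset Classical
open Pool.Agent.Work.MP_db9399_all (nb)
open Pool.Agent.Work.MP_db9399_lt (us)
open Pool.Agent.Work.MP_db9399_da hiding qV
open Pool.Agent.Work.MP_db9399_xf
open Pool.Agent.Work.MP_db9399_x4
open Pool.Agent.Work.MP_db9399_oc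

universe u

/-! ## General facts -/

/-- Markov -/
theorem markov {V : Type u} (A : Finset V) (f : V → ℝ) (s B : ℝ) (hs : 0 < s)
    (h1 : ∀ v ∈ A, s ≤ f v) (h2 : ∑ v ∈ A, f v ≤ B) : (A.card : ℝ) ≤ B / s := by
  rw [le_div_iff₀ hs]
  calc (A.card : ℝ) * s = ∑ v ∈ A, s := by rw [sum_const, nsmul_eq_mul]
    _ ≤ ∑ v ∈ A, f v := sum_le_sum h1
    _ ≤ B := h2

theorem card_biUnion_real {V : Type u} {W : Type*} (S : Finset W) (f : W → Finset V) :
    ((S.biUnion f).card : ℝ) ≤ ∑ w ∈ S, ((f w).card : ℝ) := by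
  have := card_biUnion_le (s := S) (t := f)
  exact_mod_cast this

section basic
variable {V : Type u} [Fintype V] {N J : ℕ} {k : Con} {c' : ℝ} {D : OD V N J}

theorem mem_pV {P : Pcs V N} {n : Fin N} {v : V} : v ∈ pV P n ↔ v ∉ P.V0 ∧ P.pc v = n := by
  simp [pV]

theorem mem_sV {P : Pcs V N} {n : Fin N} {β : Bool} {v : V} :
    v ∈ sV P n β ↔ v ∉ P.V0 ∧ P.pc v = n ∧ P.sd v = β := by
  simp [sV]

theorem mem_qV {X : XD V N J} {n : Fin N} {β i : Bool} {v : V} :
    v ∈ Pool.Agent.Work.MP_db9399_xf.qV X n β i ↔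
      (v ∉ X.P.V0 ∧ X.P.pc v = n ∧ X.P.sd v = β) ∧ X.P.pt v = i := by
  rw [Pool.Agent.Work.MP_db9399_xf.qV, mem_filter, mem_sV]

theorem mem_nb {G : SimpleGraph V} {v w : V} : w ∈ nb G v ↔ G.Adj v w := by
  simp [nb]

theorem sV_sub {P : Pcs V N} (n : Fin N) (β : Bool) : sV P n β ⊆ pV P n := by
  intro v hv
  rw [mem_sV] at hv
  exact mem_pV.2 ⟨hv.1, hv.2.1⟩

theorem qV_sub {X : XD V N J} (n : Fin N) (β i : Bool) :
    Pool.Agent.Work.MP_db9399_xf.qV X n β i ⊆ sV X.P n β := filter_subset _ _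

/-- number of vertices of the piece with the colour `b` at an edge of `xt` -/
theorem us_card (n : Fin N) (b : ℕ) :
    ((pV D.X.P n).filter (fun v => b ∈ D.F v)).card =
      (us (Fp (xt D.G D.X) D.X D.t n) b).card := by
  refine (card_bij (fun (v : Ts D.X.P n) _ => v.1) ?_ ?_ ?_).symm
  · intro v hv
    rw [us, mem_filter] at hv
    rw [mem_filter, mem_pV]
    exact ⟨v.2, hv.2⟩
  · intro v _ w _ h
    exact Subtype.ext h
  · intro v hv
    rw [mem_filter, mem_pV] at hv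
    exact ⟨⟨v, hv.1⟩, by rw [us, mem_filter]; exact ⟨mem_univ _, hv.2⟩, rfl⟩

theorem Fmem_lt (H : Hyp k c' D) {v : V} {b : ℕ} (h : b ∈ D.F v) : b < D.d + 2 := by
  rw [OD.F, Ft, mem_image] at h
  obtain ⟨w, hw, rfl⟩ := h
  exact H.rg.lt v w (mem_nb.1 hw)

theorem Te_xt {v w : V} (h : Te D.G D.X v w) : (xt D.G D.X).Adj v w := by
  refine ⟨h.1, fun h' => ?_⟩
  have h1 := h'.1.1.2
  rw [h.2.1.2] at h1
  exact absurd h1 (by decide)

theorem Te_symm {v w : V} (h : Te D.G D.X v w) : Te D.G D.X w v := ⟨h.1.symm, h.2.2, h.2.1⟩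

/-- every piece of type B is in a cluster -/
theorem exC (H : Hyp k c' D) (n : Fin N) (hn : D.X.P.ty n = Ty.B) :
    ∃ j : ℕ, D.inC n j ∧ ∀ v ∈ pV D.X.P n, D.X.cq v = some j := by
  obtain ⟨v, hv⟩ := H.pc.bN n hn
  have hv' := mem_pV.1 hv
  have h1 := H.pc.cln v hv'.1
  obtain ⟨j, hj⟩ := Option.ne_none_iff_exists'.1 h1
  refine ⟨j, ⟨v, hv, hj⟩, fun w hw => ?_⟩
  have hw' := mem_pV.1 hw
  rw [← hj]
  exact H.pc.clp w v hw'.1 hv'.1 (hw'.2.trans hv'.2.symm)

theorem pV_card (H : Hyp k c' D) (n : Fin N) (hn : D.X.P.ty n = Ty.B) :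
    ((pV D.X.P n).card : ℝ) ≤ k.C * D.d := by
  obtain ⟨j, _, h2⟩ := exC H n hn
  refine le_trans ?_ (H.pc.clc j)
  exact_mod_cast card_le_card fun v hv => by
    rw [mem_filter]
    exact ⟨mem_univ _, h2 v hv⟩

theorem sV_card (H : Hyp k c' D) (n : Fin N) (hn : D.X.P.ty n = Ty.B) (β : Bool) :
    ((sV D.X.P n β).card : ℝ) ≤ k.C * D.d := by
  refine le_trans ?_ (pV_card H n hn)
  exact_mod_cast card_le_card (sV_sub n β)

/-- load -/
theorem load (H : Hyp k c' D) (n : Fin N) (hn : D.X.P.ty n = Ty.B) (b : ℕ) :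
    (((pV D.X.P n).filter (fun v => b ∈ D.F v)).card : ℝ) ≤ 300 * (D.sl n).θ * D.d := by
  rw [us_card]
  exact H.rg.ldB n hn b

theorem load' (H : Hyp k c' D) (n : Fin N) (hn : D.X.P.ty n = Ty.B) (β : Bool) (b : ℕ) :
    (((sV D.X.P n β).filter (fun v => b ∈ D.F v)).card : ℝ) ≤ 300 * (D.sl n).θ * D.d := by
  refine le_trans ?_ (load H n hn b)
  exact_mod_cast card_le_card (filter_subset_filter _ (sV_sub n β))

/-- total need -/
theorem total (H : Hyp k c' D) (n : Fin N) (hn : D.X.P.ty n = Ty.B) (β : Bool) :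
    ∑ b ∈ range (D.d + 2), (D.nd n β b : ℝ) ≤ 5 / 6 * (k.C * D.d) := by
  have h1 := H.rg.totB n hn β
  push_cast at h1
  have h2 := sV_card H n hn β
  have h3 : ∑ b ∈ range (D.d + 2), (D.nd n β b : ℝ) ≤ 5 / 6 * (sV D.X.P n β).card := h1
  nlinarith [h3, h2]

/-- colours with large needs -/
theorem large (H : Hyp k c' D) (n : Fin N) (hn : D.X.P.ty n = Ty.B) (β : Bool) (s : ℕ) :
    (s : ℝ) * (((range (D.d + 2)).filter (fun c => s ≤ 5 * D.nd n β c)).card : ℝ) ≤
      25 / 6 * (k.C * D.d) := by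
  have h1 := total H n hn β
  have h2 : (s : ℝ) * (((range (D.d + 2)).filter (fun c => s ≤ 5 * D.nd n β c)).card : ℝ) ≤
      ∑ c ∈ (range (D.d + 2)).filter (fun c => s ≤ 5 * D.nd n β c), 5 * (D.nd n β c : ℝ) := by
    rw [mul_comm, ← nsmul_eq_mul, ← sum_const]
    refine sum_le_sum fun c hc => ?_
    have := (mem_filter.1 hc).2
    exact_mod_cast this
  have h3 : ∑ c ∈ (range (D.d + 2)).filter (fun c => s ≤ 5 * D.nd n β c), 5 * (D.nd n β c : ℝ) ≤
      ∑ c ∈ range (D.d + 2), 5 * (D.nd n β c : ℝ) :=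
    sum_le_sum_of_subset_of_nonneg (filter_subset _ _) fun c _ _ => by positivity
  simp only [← mul_sum] at h2 h3
  linarith

/-- pairs `(v, w)` of T-edges whose colour has a large need at the side of `v` -/
theorem pairs (H : Hyp k c' D) (n : Fin N) (hn : D.X.P.ty n = Ty.B) (β : Bool) (s : ℕ)
    (hθ : 0 < (D.sl n).θ) :
    (s : ℝ) * (((univ ×ˢ univ : Finset (V × V)).filter (fun p => p.1 ∈ sV D.X.P n β ∧
      Te D.G D.X p.1 p.2 ∧ s ≤ 5 * D.nd n β (D.t p.1 p.2))).card : ℝ) ≤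
      1250 * k.C * (D.sl n).θ * (D.d : ℝ) ^ 2 := by
  set A := (range (D.d + 2)).filter (fun c => s ≤ 5 * D.nd n β c) with hA
  set E := (univ ×ˢ univ : Finset (V × V)).filter (fun p => p.1 ∈ sV D.X.P n β ∧
      Te D.G D.X p.1 p.2 ∧ s ≤ 5 * D.nd n β (D.t p.1 p.2)) with hE
  set W := A.sigma (fun c => (sV D.X.P n β).filter (fun v => c ∈ D.F v)) with hW
  have h1 : E.card ≤ W.card := by
    refine card_le_card_of_injOn (fun p => ⟨D.t p.1 p.2, p.1⟩) ?_ ?_
    · intro p hp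
      have hp := mem_coe.1 hp
      rw [hE, mem_filter] at hp
      obtain ⟨-, hp1, hp2, hp3⟩ := hp
      have hx := Te_xt hp2
      refine mem_coe.2 ?_
      rw [hW, mem_sigma]
      refine ⟨?_, ?_⟩
      · rw [hA, mem_filter, mem_range]
        exact ⟨H.rg.lt _ _ hx, hp3⟩
      · rw [mem_filter]
        refine ⟨hp1, ?_⟩
        rw [OD.F, Ft, mem_image]
        exact ⟨p.2, mem_nb.2 hx, rfl⟩
    · intro p hp p' hp' h
      have hp := mem_coe.1 hp
      have hp' := mem_coe.1 hp'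
      rw [hE, mem_filter] at hp hp'
      simp only [Sigma.mk.injEq] at h
      obtain ⟨h1, h2⟩ := h
      have h2 := eq_of_heq h2
      have hx := Te_xt hp.2.2.1
      have hx' := Te_xt hp'.2.2.1
      refine Prod.ext h2 ?_
      rw [← h2] at hx' h1
      exact H.rg.inj p.1 (mem_coe.2 (mem_nb.2 hx)) (mem_coe.2 (mem_nb.2 hx')) h1
  have h2 : (W.card : ℝ) ≤ A.card * (300 * (D.sl n).θ * D.d) := by
    rw [hW, card_sigma]
    push_cast
    calc ∑ c ∈ A, (((sV D.X.P n β).filter (fun v => c ∈ D.F v)).card : ℝ)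
        ≤ ∑ c ∈ A, 300 * (D.sl n).θ * D.d := sum_le_sum fun c _ => load' H n hn β c
      _ = _ := by rw [sum_const, nsmul_eq_mul]
  have h3 := large H n hn β s
  rw [← hA] at h3
  have h4 : (E.card : ℝ) ≤ W.card := by exact_mod_cast h1
  have hs : (0 : ℝ) ≤ s := by positivity
  have hd : (0 : ℝ) ≤ D.d := by positivity
  calc (s : ℝ) * E.card ≤ s * (A.card * (300 * (D.sl n).θ * D.d)) :=
        mul_le_mul_of_nonneg_left (h4.trans h2) hs
    _ = (s * A.card) * (300 * (D.sl n).θ * D.d) := by ring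
    _ ≤ (25 / 6 * (k.C * D.d)) * (300 * (D.sl n).θ * D.d) :=
        mul_le_mul_of_nonneg_right h3 (by positivity)
    _ = _ := by ring

end basic

section bad
variable {V : Type u} [Fintype V] {N J : ℕ} {k : Con} {c' : ℝ} {D : OD V N J}

/-- few vertices have a large thin degree -/
theorem bad_thin (H : Hyp k c' D) (n : Fin N) (hn : D.X.P.ty n = Ty.B) (hθ : 0 < (D.sl n).θ)
    (hd : 0 < D.d) :
    (((pV D.X.P n).filter (fun v => ¬ ((nb (thin D.G D.X.P) v).card : ℝ) ≤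
      Real.sqrt (D.sl n).θ * D.d)).card : ℝ) ≤ Real.sqrt (D.sl n).θ * D.d := by
  have hd' : (0 : ℝ) < D.d := by exact_mod_cast hd
  have hs : 0 < Real.sqrt (D.sl n).θ := Real.sqrt_pos.2 hθ
  have hs2 : Real.sqrt (D.sl n).θ * Real.sqrt (D.sl n).θ = (D.sl n).θ := Real.mul_self_sqrt hθ.le
  have h1 := markov ((pV D.X.P n).filter (fun v => ¬ ((nb (thin D.G D.X.P) v).card : ℝ) ≤
      Real.sqrt (D.sl n).θ * D.d)) (fun v => ((nb (thin D.G D.X.P) v).card : ℝ))
      (Real.sqrt (D.sl n).θ * D.d) ((D.sl n).θ * (D.d : ℝ) ^ 2) (by positivity)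
      (fun v hv => (not_le.1 (mem_filter.1 hv).2).le)
      (le_trans (sum_le_sum_of_subset_of_nonneg (filter_subset _ _) fun _ _ _ => by positivity)
        (H.pc.ths n (Or.inr hn)))
  refine h1.trans (le_of_eq ?_)
  rw [div_eq_iff (by positivity)]
  calc (D.sl n).θ * (D.d : ℝ) ^ 2
      = (Real.sqrt (D.sl n).θ * Real.sqrt (D.sl n).θ) * (D.d : ℝ) ^ 2 := by rw [hs2]
    _ = _ := by ring

/-- few vertices have large sums of needs -/
theorem bad_R (H : Hyp k c' D) (n : Fin N) (hn : D.X.P.ty n = Ty.B) (hθ : 0 < (D.sl n).θ)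
    (hd : 0 < D.d) (β : Bool) :
    (((sV D.X.P n β).filter (fun v => ¬ ((∑ c ∈ D.F v, D.ndv v c : ℕ) : ℝ) ≤
      Real.sqrt (D.sl n).θ * D.d)).card : ℝ) ≤ 250 * k.C * (Real.sqrt (D.sl n).θ * D.d) := by
  have hd' : (0 : ℝ) < D.d := by exact_mod_cast hd
  have hs : 0 < Real.sqrt (D.sl n).θ := Real.sqrt_pos.2 hθ
  have hs2 : Real.sqrt (D.sl n).θ * Real.sqrt (D.sl n).θ = (D.sl n).θ := Real.mul_self_sqrt hθ.le
  have h0 : ∑ v ∈ sV D.X.P n β, ((∑ c ∈ D.F v, D.ndv v c : ℕ) : ℝ) ≤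
      250 * k.C * (D.sl n).θ * (D.d : ℝ) ^ 2 := by
    have e1 : ∀ v ∈ sV D.X.P n β, ((∑ c ∈ D.F v, D.ndv v c : ℕ) : ℝ) =
        ∑ c ∈ range (D.d + 2), if c ∈ D.F v then (D.nd n β c : ℝ) else 0 := by
      intro v hv
      have hv := mem_sV.1 hv
      rw [← sum_filter]
      push_cast
      have e2 : (range (D.d + 2)).filter (fun c => c ∈ D.F v) = D.F v := by
        ext c
        rw [mem_filter, mem_range]
        exact ⟨fun h => h.2, fun h => ⟨Fmem_lt H h, h⟩⟩
      rw [e2]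
      refine sum_congr rfl fun c _ => ?_
      rw [OD.ndv, hv.2.1, hv.2.2]
    rw [sum_congr rfl e1, sum_comm]
    calc ∑ c ∈ range (D.d + 2), ∑ v ∈ sV D.X.P n β, (if c ∈ D.F v then (D.nd n β c : ℝ) else 0)
        = ∑ c ∈ range (D.d + 2), (D.nd n β c : ℝ) *
            (((sV D.X.P n β).filter (fun v => c ∈ D.F v)).card : ℝ) := by
          refine sum_congr rfl fun c _ => ?_
          rw [← sum_filter, sum_const, nsmul_eq_mul, mul_comm]
      _ ≤ ∑ c ∈ range (D.d + 2), (D.nd n β c : ℝ) * (300 * (D.sl n).θ * D.d) :=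
          sum_le_sum fun c _ => mul_le_mul_of_nonneg_left (load' H n hn β c) (by positivity)
      _ = (∑ c ∈ range (D.d + 2), (D.nd n β c : ℝ)) * (300 * (D.sl n).θ * D.d) := by
          rw [sum_mul]
      _ ≤ (5 / 6 * (k.C * D.d)) * (300 * (D.sl n).θ * D.d) :=
          mul_le_mul_of_nonneg_right (total H n hn β) (by positivity)
      _ = _ := by ring
  have h1 := markov ((sV D.X.P n β).filter (fun v => ¬ ((∑ c ∈ D.F v, D.ndv v c : ℕ) : ℝ) ≤
      Real.sqrt (D.sl n).θ * D.d)) (fun v => ((∑ c ∈ D.F v, D.ndv v c : ℕ) : ℝ))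
      (Real.sqrt (D.sl n).θ * D.d) (250 * k.C * (D.sl n).θ * (D.d : ℝ) ^ 2) (by positivity)
      (fun v hv => (not_le.1 (mem_filter.1 hv).2).le)
      (le_trans (sum_le_sum_of_subset_of_nonneg (filter_subset _ _) fun _ _ _ => by positivity)
        h0)
  refine h1.trans (le_of_eq ?_)
  rw [div_eq_iff (by positivity)]
  calc 250 * k.C * (D.sl n).θ * (D.d : ℝ) ^ 2
      = 250 * k.C * (Real.sqrt (D.sl n).θ * Real.sqrt (D.sl n).θ) * (D.d : ℝ) ^ 2 := by rw [hs2]
    _ = _ := by ring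

/-- few vertices have many neighbours with free `b` in the side `β'` of the piece `m` -/
theorem bad_dg (H : Hyp k c' D) (n m : Fin N) (hn : D.X.P.ty n = Ty.B) (hm : D.X.P.ty m = Ty.B)
    (hs : D.sl m = D.sl n) (hθ : 0 < (D.sl n).θ) (hd : 0 < D.d) (β β' : Bool) (b : ℕ)
    (hb : b < D.d + 2) (hK : D.K < D.nd n β b) (hK' : D.K < D.nd m β' b) :
    (((sV D.X.P n β).filter (fun v => D.fr v b ∧ ¬ (D.dg v m β' b : ℝ) *
      (D.ndv v b + D.nd m β' b) ≤ Real.sqrt (D.sl n).θ * D.d)).card : ℝ) ≤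
        2500 * k.C * (Real.sqrt (D.sl n).θ * D.d) := by
  have hd' : (0 : ℝ) < D.d := by exact_mod_cast hd
  have hs1 : 0 < Real.sqrt (D.sl n).θ := Real.sqrt_pos.2 hθ
  have hs2 : Real.sqrt (D.sl n).θ * Real.sqrt (D.sl n).θ = (D.sl n).θ := Real.mul_self_sqrt hθ.le
  set A := (sV D.X.P n β).filter (fun v => D.fr v b ∧ ¬ (D.dg v m β' b : ℝ) *
      (D.ndv v b + D.nd m β' b) ≤ Real.sqrt (D.sl n).θ * D.d) with hA
  set s := D.nd n β b + D.nd m β' b with hsd
  set E1 := (univ ×ˢ univ : Finset (V × V)).filter (fun p => p.1 ∈ sV D.X.P n β ∧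
      Te D.G D.X p.1 p.2 ∧ s ≤ 5 * D.nd n β (D.t p.1 p.2)) with hE1
  set E2 := (univ ×ˢ univ : Finset (V × V)).filter (fun p => p.1 ∈ sV D.X.P m β' ∧
      Te D.G D.X p.1 p.2 ∧ s ≤ 5 * D.nd m β' (D.t p.1 p.2)) with hE2
  have p1 := pairs H n hn β s hθ
  have p2 := pairs H m hm β' s (by rw [hs]; exact hθ)
  rw [← hE1] at p1
  rw [← hE2, hs] at p2
  set W := A.sigma (fun v => (sV D.X.P m β').filter (fun w => Te D.G D.X v w ∧ D.fr w b)) with hW
  have hWc : (W.card : ℝ) = ∑ v ∈ A, (D.dg v m β' b : ℝ) := by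
    rw [hW, card_sigma]
    push_cast
    rfl
  have h1 : W.card ≤ E1.card + E2.card := by
    have h2 : W.card ≤ (E1.disjSum E2).card := by
      refine card_le_card_of_injOn (fun p => if s ≤ 5 * D.nd n β (D.t p.1 p.2) then
        Sum.inl (p.1, p.2) else Sum.inr (p.2, p.1)) ?_ ?_
      · intro p hp
        have hp := mem_coe.1 hp
        rw [hW, mem_sigma] at hp
        obtain ⟨hp1, hp2'⟩ := hp
        obtain ⟨hp2, hp3, hp4⟩ := mem_filter.1 hp2'
        rw [hA, mem_filter] at hp1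
        obtain ⟨hp5, hp6, -⟩ := hp1
        have q5 := mem_sV.1 hp5
        have q2 := mem_sV.1 hp2
        refine mem_coe.2 ?_
        show (if s ≤ 5 * D.nd n β (D.t p.1 p.2) then
          Sum.inl (p.1, p.2) else Sum.inr (p.2, p.1)) ∈ _
        split_ifs with h
        · rw [inl_mem_disjSum, hE1, mem_filter]
          exact ⟨mem_product.2 ⟨mem_univ _, mem_univ _⟩, hp5, hp3, h⟩
        · rw [inr_mem_disjSum, hE2, mem_filter]
          refine ⟨mem_product.2 ⟨mem_univ _, mem_univ _⟩, hp2, Te_symm hp3, ?_⟩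
          have ht := H.rg.tame p.1 p.2 b hp3 hb hp6.2.1 hp4.2.1 hp6.2.2 hp4.2.2
            (by
              rw [← H.K, q5.2.1, q5.2.2]
              exact hK)
            (by
              rw [← H.K, q2.2.1, q2.2.2]
              exact hK')
          rw [q5.2.1, q5.2.2, q2.2.1, q2.2.2] at ht
          rcases ht with ht | ht
          · exact absurd ht h
          · show s ≤ 5 * D.nd m β' (D.t p.2 p.1)
            rw [H.rg.sym p.2 p.1]
            exact ht
      · intro p _ p' _ h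
        have h : (if s ≤ 5 * D.nd n β (D.t p.1 p.2) then
            Sum.inl (p.1, p.2) else Sum.inr (p.2, p.1) : (V × V) ⊕ (V × V)) =
            (if s ≤ 5 * D.nd n β (D.t p'.1 p'.2) then
              Sum.inl (p'.1, p'.2) else Sum.inr (p'.2, p'.1)) := h
        split_ifs at h with h1 h2 h2
        · have := Sum.inl.inj h
          simp only [Prod.mk.injEq] at this
          exact Sigma.ext this.1 (heq_of_eq this.2)
        · have := Sum.inr.inj h
          simp only [Prod.mk.injEq] at this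
          exact Sigma.ext this.2 (heq_of_eq this.1)
    rwa [card_disjSum] at h2
  have h2 : (s : ℝ) * W.card ≤ 2500 * k.C * (D.sl n).θ * (D.d : ℝ) ^ 2 := by
    have h3 : (W.card : ℝ) ≤ E1.card + E2.card := by exact_mod_cast h1
    have h4 : (s : ℝ) * W.card ≤ s * (E1.card + E2.card) :=
      mul_le_mul_of_nonneg_left h3 (by positivity)
    nlinarith [h4, p1, p2]
  have h3 := markov A (fun v => (D.dg v m β' b : ℝ) * s) (Real.sqrt (D.sl n).θ * D.d)
    (2500 * k.C * (D.sl n).θ * (D.d : ℝ) ^ 2) (by positivity)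
    (fun v hv => by
      rw [hA, mem_filter] at hv
      have q := mem_sV.1 hv.1
      have h5 := (not_le.1 hv.2.2).le
      have e : D.ndv v b = D.nd n β b := by rw [OD.ndv, q.2.1, q.2.2]
      rw [e] at h5
      rw [hsd]
      push_cast
      exact h5)
    (by
      rw [← sum_mul, ← hWc, mul_comm]
      exact h2)
  refine h3.trans (le_of_eq ?_)
  rw [div_eq_iff (by positivity)]
  calc 2500 * k.C * (D.sl n).θ * (D.d : ℝ) ^ 2
      = 2500 * k.C * (Real.sqrt (D.sl n).θ * Real.sqrt (D.sl n).θ) * (D.d : ℝ) ^ 2 := by rw [hs2]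
    _ = _ := by ring

/-- the pieces of a cluster -/
noncomputable def cls' (D : OD V N J) (j : ℕ) : Finset (Fin N) :=
  univ.filter (fun m => ∃ v, v ∉ D.X.P.V0 ∧ D.X.P.pc v = m ∧ D.X.cq v = some j)

/-- few vertices are not typical -/
theorem bad_typ (H : Hyp k c' D) (n : Fin N) (hn : D.X.P.ty n = Ty.B) (hθ : 0 < (D.sl n).θ)
    (hd : 0 < D.d) (hC : 1 ≤ k.C) (β : Bool) (b : ℕ) (hb : b < D.d + 2) :
    (((sV D.X.P n β).filter (fun v => D.fr v b ∧ ¬ D.typ v b)).card : ℝ) ≤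
      (1 + 250 * k.C + 5000 * k.M * k.C) * (Real.sqrt (D.sl n).θ * D.d) := by
  obtain ⟨j, hj1, hj2⟩ := exC H n hn
  set Y := Real.sqrt (D.sl n).θ * D.d with hY
  have hY0 : 0 ≤ Y := by positivity
  set A1 := (pV D.X.P n).filter (fun v => ¬ ((nb (thin D.G D.X.P) v).card : ℝ) ≤ Y) with hA1
  set A2 := (sV D.X.P n β).filter (fun v => ¬ ((∑ c ∈ D.F v, D.ndv v c : ℕ) : ℝ) ≤ Y) with hA2
  set A3 : Fin N → Bool → Finset V := fun m β' => if D.K < D.nd n β b ∧ D.K < D.nd m β' b ∧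
    D.X.P.ty m = Ty.B then (sV D.X.P n β).filter (fun v => D.fr v b ∧ ¬ (D.dg v m β' b : ℝ) *
      (D.ndv v b + D.nd m β' b) ≤ Y) else ∅ with hA3
  have h3 : ∀ m ∈ cls' D j, ∀ β', ((A3 m β').card : ℝ) ≤ 2500 * k.C * Y := by
    intro m hm β'
    rw [cls', mem_filter] at hm
    obtain ⟨-, w, hw1, hw2, hw3⟩ := hm
    simp only [hA3]
    split_ifs with h
    · refine bad_dg H n m hn h.2.2 ?_ hθ hd β β' b hb h.1 h.2.1
      obtain ⟨v, hv, hv2⟩ := hj1
      have hv1 := mem_pV.1 hv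
      have := H.pc.scq w v hw1 hv1.1 (hw3.trans hv2.symm)
      rw [hw2, hv1.2] at this
      simp only [OD.sl, this]
    · simp only [card_empty, Nat.cast_zero]
      positivity
  have hsub : (sV D.X.P n β).filter (fun v => D.fr v b ∧ ¬ D.typ v b) ⊆
      (A1 ∪ A2) ∪ ((cls' D j).biUnion (fun m => A3 m false) ∪
        (cls' D j).biUnion (fun m => A3 m true)) := by
    intro v hv
    rw [mem_filter] at hv
    obtain ⟨hv1, hv2, hv3⟩ := hv
    have hp := mem_sV.1 hv1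
    by_contra hcon
    rw [mem_union, mem_union, not_or, not_or] at hcon
    obtain ⟨⟨c1, c2⟩, c3⟩ := hcon
    refine hv3 ⟨?_, ?_, ?_⟩
    · rw [hp.2.1]
      by_contra h
      exact c1 (by rw [hA1, mem_filter]; exact ⟨mem_pV.2 ⟨hp.1, hp.2.1⟩, h⟩)
    · rw [hp.2.1]
      by_contra h
      exact c2 (by rw [hA2, mem_filter]; exact ⟨hv1, h⟩)
    · intro m β' hm hw hK hK'
      rw [hp.2.1]
      by_contra h
      obtain ⟨w, hw1, hw2⟩ := hw
      have hw1 := mem_pV.1 hw1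
      have hmc : m ∈ cls' D j := by
        rw [cls', mem_filter]
        exact ⟨mem_univ _, w, hw1.1, hw1.2, hw2.trans (hj2 v (mem_pV.2 ⟨hp.1, hp.2.1⟩))⟩
      have e : D.ndv v b = D.nd n β b := by rw [OD.ndv, hp.2.1, hp.2.2]
      have hA : v ∈ A3 m β' := by
        simp only [hA3]
        rw [if_pos ⟨e ▸ hK, hK', hm⟩, mem_filter]
        exact ⟨hv1, hv2, h⟩
      apply c3
      rw [mem_union]
      cases β' with
      | false => exact Or.inl (mem_biUnion.2 ⟨m, hmc, hA⟩)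
      | true => exact Or.inr (mem_biUnion.2 ⟨m, hmc, hA⟩)
  have hM : ((cls' D j).card : ℝ) ≤ k.M := by
    have := H.pc.npc j
    exact_mod_cast this
  have hB : ∀ β', (((cls' D j).biUnion (fun m => A3 m β')).card : ℝ) ≤ k.M * (2500 * k.C * Y) := by
    intro β'
    refine (card_biUnion_real _ _).trans ?_
    calc ∑ m ∈ cls' D j, ((A3 m β').card : ℝ) ≤ ∑ m ∈ cls' D j, 2500 * k.C * Y :=
          sum_le_sum fun m hm => h3 m hm β'
      _ = (cls' D j).card * (2500 * k.C * Y) := by rw [sum_const, nsmul_eq_mul]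
      _ ≤ _ := mul_le_mul_of_nonneg_right hM (by positivity)
  have h1 := bad_thin H n hn hθ hd
  have h2 := bad_R H n hn hθ hd β
  rw [← hY] at h1 h2
  rw [← hA1] at h1
  rw [← hA2] at h2
  have h4 : (((sV D.X.P n β).filter (fun v => D.fr v b ∧ ¬ D.typ v b)).card : ℝ) ≤
      ((A1.card : ℝ) + A2.card) + (((cls' D j).biUnion (fun m => A3 m false)).card +
        ((cls' D j).biUnion (fun m => A3 m true)).card) := by
    have e1 := card_le_card hsub
    have e2 := card_union_le (A1 ∪ A2) ((cls' D j).biUnion (fun m => A3 m false) ∪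
        (cls' D j).biUnion (fun m => A3 m true))
    have e3 := card_union_le A1 A2
    have e4 := card_union_le ((cls' D j).biUnion (fun m => A3 m false))
        ((cls' D j).biUnion (fun m => A3 m true))
    have e5 := e1.trans (e2.trans (add_le_add e3 e4))
    exact_mod_cast e5
  have h5 := hB false
  have h6 := hB true
  linarith

end bad

section bad2
variable {V : Type u} [Fintype V] {N J : ℕ} {k : Con} {c' : ℝ} {D : OD V N J}

/-- `w` has many neighbours in the piece `n` -/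
def big (D : OD V N J) (n : Fin N) (w : V) : Prop :=
  (D.sl n).ζ / 1000 * D.d ≤ ((nb D.G w ∩ pV D.X.P n).card : ℝ)

/-- few vertices have a small neighbour with own colour `b` -/
theorem bad_O (H : Hyp k c' D) (n : Fin N) (hn : D.X.P.ty n = Ty.B) (b : ℕ) :
    (((pV D.X.P n).filter (fun v => ∃ w, Owd D.X w ∧ D.cN w = b ∧ ¬ big D n w ∧
      D.G.Adj v w)).card : ℝ) ≤ 1 / 50 * (D.sl n).ζ * D.d := by
  refine le_trans ?_ (H.own.sml n hn b)
  set S := univ.filter (fun w => Owd D.X w ∧ D.cN w = b ∧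
    ((nb D.G w ∩ pV D.X.P n).card : ℝ) < (D.S (D.X.sc n)).ζ / 1000 * D.d) with hS
  have h1 : (pV D.X.P n).filter (fun v => ∃ w, Owd D.X w ∧ D.cN w = b ∧ ¬ big D n w ∧
      D.G.Adj v w) ⊆ S.biUnion (fun w => nb D.G w ∩ pV D.X.P n) := by
    intro v hv
    rw [mem_filter] at hv
    obtain ⟨hv, w, hw1, hw2, hw3, hw4⟩ := hv
    rw [mem_biUnion]
    refine ⟨w, ?_, mem_inter.2 ⟨mem_nb.2 hw4.symm, hv⟩⟩
    rw [hS, mem_filter]
    exact ⟨mem_univ _, hw1, hw2, not_le.1 hw3⟩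
  have h2 := (card_le_card h1).trans card_biUnion_le
  exact_mod_cast h2

/-- few vertices have a reserved neighbour with own colour `b` -/
theorem bad_U (H : Hyp k c' D) (n : Fin N) (hn : D.X.P.ty n = Ty.B) {e η' : ℝ}
    {U : Finset V} {cR : V → ℕ} (hR : D.Rsv e η' c' U cR) (b : ℕ) :
    (((pV D.X.P n).filter (fun v => ∃ y ∈ U, D.G.Adj v y ∧ cR y = b)).card : ℝ) ≤
      k.M * (Real.sqrt (D.sl n).θ * D.d) + (D.d : ℝ) ^ (1 - c' / 2) := by
  obtain ⟨j, hj1, hj2⟩ := exC H n hn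
  set Y := Real.sqrt (D.sl n).θ * D.d with hY
  have hY0 : 0 ≤ Y := by positivity
  set S1 := U.filter (fun y => cR y = b ∧ D.X.cq y = some j) with hS1
  set S2 := U.filter (fun y => cR y = b ∧ D.X.cq y ≠ some j) with hS2
  have h0 : (pV D.X.P n).filter (fun v => ∃ y ∈ U, D.G.Adj v y ∧ cR y = b) ⊆
      S1.biUnion (fun w => nb D.G w ∩ pV D.X.P n) ∪
        S2.biUnion (fun w => nb D.G w ∩ pV D.X.P n) := by
    intro v hv
    rw [mem_filter] at hv
    obtain ⟨hv, y, hy, hy2, hy3⟩ := hv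
    rw [mem_union, mem_biUnion, mem_biUnion]
    by_cases h : D.X.cq y = some j
    · exact Or.inl ⟨y, mem_filter.2 ⟨hy, hy3, h⟩, mem_inter.2 ⟨mem_nb.2 hy2.symm, hv⟩⟩
    · exact Or.inr ⟨y, mem_filter.2 ⟨hy, hy3, h⟩, mem_inter.2 ⟨mem_nb.2 hy2.symm, hv⟩⟩
  have h1 : ((S1.biUnion (fun w => nb D.G w ∩ pV D.X.P n)).card : ℝ) ≤ k.M * Y := by
    refine (card_biUnion_real _ _).trans ?_
    have c1 : S1.card ≤ (cls' D j).card := by
      refine card_le_card_of_injOn D.X.P.pc ?_ ?_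
      · intro y hy
        have hy := mem_filter.1 (mem_coe.1 hy)
        have hU := hR.base.UK y hy.1
        refine mem_coe.2 ?_
        rw [cls', mem_filter]
        exact ⟨mem_univ _, y, hU.1.1.1, rfl, hy.2.2⟩
      · intro y hy y' hy' h
        have hy := mem_filter.1 (mem_coe.1 hy)
        have hy' := mem_filter.1 (mem_coe.1 hy')
        exact hR.base.Ui y hy.1 y' hy'.1 h (hy.2.1.trans hy'.2.1.symm)
    have c2 : ((cls' D j).card : ℝ) ≤ k.M := by
      have := H.pc.npc j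
      exact_mod_cast this
    have c3 : (S1.card : ℝ) ≤ k.M := le_trans (by exact_mod_cast c1) c2
    calc ∑ y ∈ S1, ((nb D.G y ∩ pV D.X.P n).card : ℝ) ≤ ∑ y ∈ S1, Y := by
          refine sum_le_sum fun y hy => ?_
          have hy := mem_filter.1 hy
          obtain ⟨v, hv, hv2⟩ := hj1
          exact hR.near y hy.1 n hn ⟨v, hv, hv2.trans hy.2.2.symm⟩
      _ = S1.card * Y := by rw [sum_const, nsmul_eq_mul]
      _ ≤ _ := mul_le_mul_of_nonneg_right c3 hY0
  have h2 : ((S2.biUnion (fun w => nb D.G w ∩ pV D.X.P n)).card : ℝ) ≤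
      (D.d : ℝ) ^ (1 - c' / 2) := by
    refine le_trans ?_ (hR.far n j hn hj1 b)
    exact_mod_cast card_biUnion_le
  have h3 := (card_le_card h0).trans (card_union_le _ _)
  have h4 : (((pV D.X.P n).filter (fun v => ∃ y ∈ U, D.G.Adj v y ∧ cR y = b)).card : ℝ) ≤
      (S1.biUnion (fun w => nb D.G w ∩ pV D.X.P n)).card +
        (S2.biUnion (fun w => nb D.G w ∩ pV D.X.P n)).card := by exact_mod_cast h3
  linarith

/-- All bad vertices together. -/
theorem bad_all (H : Hyp k c' D) (n : Fin N) (hn : D.X.P.ty n = Ty.B) (hθ : 0 < (D.sl n).θ)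
    (hd : 0 < D.d) (hC : 1 ≤ k.C) {e η' : ℝ} {U : Finset V} {cR : V → ℕ}
    (hR : D.Rsv e η' c' U cR) (β i : Bool) (b : ℕ) (hb : b < D.d + 2) :
    ∃ Bd : Finset V, (Bd.card : ℝ) ≤ 1 / 50 * (D.sl n).ζ * D.d + (300 * (D.sl n).θ * D.d +
      (1 + 250 * k.C + 5000 * k.M * k.C + k.M) * (Real.sqrt (D.sl n).θ * D.d)) +
        (2 + (D.d : ℝ) ^ (1 - c' / 2)) ∧
      ∀ v ∈ Pool.Agent.Work.MP_db9399_xf.qV D.X n β i, v ∉ Bd →
        (∀ w, Owd D.X w → D.cN w = b → big D n w → ¬ D.G.Adj v w) →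
        v ∈ D.Av U cR n β i b := by
  set Y := Real.sqrt (D.sl n).θ * D.d with hY
  set B1 := (pV D.X.P n).filter (fun v => b ∈ D.F v) with hB1
  set B2 := (pV D.X.P n).filter (fun v => b ∈ D.Ex v) with hB2
  set B3 := (sV D.X.P n β).filter (fun v => D.fr v b ∧ ¬ D.typ v b) with hB3
  set B4 := (pV D.X.P n).filter (fun v => ∃ w, Owd D.X w ∧ D.cN w = b ∧ ¬ big D n w ∧
      D.G.Adj v w) with hB4
  set B5 := (pV D.X.P n).filter (fun v => ∃ y ∈ U, D.G.Adj v y ∧ cR y = b) with hB5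
  refine ⟨B1 ∪ B2 ∪ B3 ∪ B4 ∪ B5, ?_, ?_⟩
  · have c1 : (B1.card : ℝ) ≤ 300 * (D.sl n).θ * D.d := load H n hn b
    have c2 : (B2.card : ℝ) ≤ 2 := by
      have := H.rg.exn n hn b
      exact_mod_cast this
    have c3 : (B3.card : ℝ) ≤ (1 + 250 * k.C + 5000 * k.M * k.C) * Y :=
      bad_typ H n hn hθ hd hC β b hb
    have c4 : (B4.card : ℝ) ≤ 1 / 50 * (D.sl n).ζ * D.d := bad_O H n hn b
    have c5 : (B5.card : ℝ) ≤ k.M * Y + (D.d : ℝ) ^ (1 - c' / 2) := bad_U H n hn hR b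
    have e1 : ((B1 ∪ B2 ∪ B3 ∪ B4 ∪ B5).card : ℝ) ≤ B1.card + B2.card + B3.card + B4.card +
        B5.card := by
      have f1 := card_union_le (B1 ∪ B2 ∪ B3 ∪ B4) B5
      have f2 := card_union_le (B1 ∪ B2 ∪ B3) B4
      have f3 := card_union_le (B1 ∪ B2) B3
      have f4 := card_union_le B1 B2
      have f5 : (B1 ∪ B2 ∪ B3 ∪ B4 ∪ B5).card ≤ B1.card + B2.card + B3.card + B4.card +
        B5.card := by omega
      exact_mod_cast f5
    nlinarith
  · intro v hv hvB hw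
    have hq := mem_qV.1 hv
    have hp : v ∈ pV D.X.P n := mem_pV.2 ⟨hq.1.1, hq.1.2.1⟩
    have hs : v ∈ sV D.X.P n β := mem_sV.2 hq.1
    rw [mem_union, mem_union, mem_union, mem_union, not_or, not_or, not_or, not_or] at hvB
    obtain ⟨⟨⟨⟨v1, v2⟩, v3⟩, v4⟩, v5⟩ := hvB
    have hB : InT D.X Ty.B v := ⟨hq.1.1, by rw [hq.1.2.1]; exact hn⟩
    have hfr : D.fr v b := by
      refine ⟨hB, fun h => v1 ?_, fun h => v2 ?_⟩
      · rw [hB1, mem_filter]; exact ⟨hp, h⟩
      · rw [hB2, mem_filter]; exact ⟨hp, h⟩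
    rw [OD.Av, mem_filter]
    refine ⟨hv, hfr, ?_, ?_, ?_⟩
    · by_contra h
      exact v3 (by rw [hB3, mem_filter]; exact ⟨hs, hfr, h⟩)
    · intro w hw1 hw2 hw3
      by_cases hbg : big D n w
      · exact hw w hw1 hw3 hbg hw2
      · exact v4 (by rw [hB4, mem_filter]; exact ⟨hp, w, hw1, hw3, hbg, hw2⟩)
    · intro y hy hy2 hy3
      exact v5 (by rw [hB5, mem_filter]; exact ⟨hp, y, hy, hy2, hy3⟩)

/-- edges from the piece to vertices with own colours of the outside are thin -/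
theorem thin_O {n : Fin N} (hn : D.X.P.ty n = Ty.B) {v w : V} (hv : v ∈ pV D.X.P n)
    (hw : Owd D.X w) (h : D.G.Adj v w) : (thin D.G D.X.P).Adj v w := by
  refine ⟨h, fun hb => ?_⟩
  rcases hw with hw | hw
  · exact hb.2.2.1 hw
  · have h1 := hw.2
    have h2 := hb.2.2.2.1
    rw [← h2, (mem_pV.1 hv).2, hn] at h1
    exact absurd h1 (by decide)

/-- the special colours -/
theorem sp_card (H : Hyp k c' D) (n : Fin N) (hn : D.X.P.ty n = Ty.B) (hζ : 0 < (D.sl n).ζ)
    (hd : 0 < D.d) :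
    ((D.Spc n).card : ℝ) * (D.sl n).ζ ≤ 1000 * (D.sl n).θ * D.d := by
  have hd' : (0 : ℝ) < D.d := by exact_mod_cast hd
  set W := univ.filter (fun w => Owd D.X w ∧ big D n w) with hW
  have h1 : (D.Spc n).card ≤ W.card := by
    have : D.Spc n ⊆ W.image D.cN := by
      intro b hb
      rw [OD.Spc, mem_filter] at hb
      obtain ⟨-, w, hw1, hw2, hw3⟩ := hb
      rw [mem_image]
      exact ⟨w, by rw [hW, mem_filter]; exact ⟨mem_univ _, hw1, hw3⟩, hw2⟩
    exact (card_le_card this).trans card_image_le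
  have h2 : ∑ w ∈ W, ((nb D.G w ∩ pV D.X.P n).card : ℝ) ≤ (D.sl n).θ * (D.d : ℝ) ^ 2 := by
    refine le_trans ?_ (H.pc.ths n (Or.inr hn))
    have e1 : ∀ w ∈ W, ((nb D.G w ∩ pV D.X.P n).card : ℝ) =
        ∑ v ∈ pV D.X.P n, if D.G.Adj v w then (1 : ℝ) else 0 := by
      intro w _
      rw [← sum_filter, sum_const, nsmul_eq_mul, mul_one]
      congr 2
      ext v
      rw [mem_inter, mem_nb, mem_filter]
      exact ⟨fun h => ⟨h.2, h.1.symm⟩, fun h => ⟨h.2.symm, h.1⟩⟩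
    rw [sum_congr rfl e1, sum_comm]
    refine sum_le_sum fun v hv => ?_
    rw [← sum_filter, sum_const, nsmul_eq_mul, mul_one]
    exact_mod_cast card_le_card fun w hw => by
      rw [mem_filter, hW, mem_filter] at hw
      exact mem_nb.2 (thin_O hn hv hw.1.2.1 hw.2)
  have h3 := markov W (fun w => ((nb D.G w ∩ pV D.X.P n).card : ℝ)) ((D.sl n).ζ / 1000 * D.d)
    ((D.sl n).θ * (D.d : ℝ) ^ 2) (by positivity)
    (fun w hw => by
      rw [hW, mem_filter] at hw
      exact hw.2.2) h2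
  rw [le_div_iff₀ (by positivity)] at h3
  have h4 : ((D.Spc n).card : ℝ) ≤ W.card := by exact_mod_cast h1
  have h5 : (W.card : ℝ) * (D.sl n).ζ ≤ 1000 * (D.sl n).θ * D.d := by
    have h6 : ((W.card : ℝ) * (D.sl n).ζ) * D.d ≤ (1000 * (D.sl n).θ * D.d) * D.d := by
      nlinarith [h3]
    exact le_of_mul_le_mul_right h6 hd'
  calc ((D.Spc n).card : ℝ) * (D.sl n).ζ ≤ W.card * (D.sl n).ζ :=
        mul_le_mul_of_nonneg_right h4 hζ.le
    _ ≤ _ := h5

/-- sizes of the sides -/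
theorem side_large (H : Hyp k c' D) (n : Fin N) (hn : D.X.P.ty n = Ty.B) (β : Bool) :
    (1 - (D.sl n).ζ) * D.d ≤ ((sV D.X.P n β).card : ℝ) := by
  have hne : (sV D.X.P n (!β)).Nonempty := by
    obtain ⟨v, hv⟩ := H.pc.bN n hn
    have hv := mem_pV.1 hv
    have he := H.pc.bE n hn
    have h1 : (sV D.X.P n (D.X.P.sd v)).Nonempty := ⟨v, mem_sV.2 ⟨hv.1, hv.2, rfl⟩⟩
    have h2 : 0 < (sV D.X.P n (D.X.P.sd v)).card := card_pos.2 h1
    rw [← card_pos]
    cases h3 : D.X.P.sd v <;> cases β <;> simp_all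
  obtain ⟨v, hv⟩ := hne
  have hv := mem_sV.1 hv
  have hB : InT D.X Ty.B v := ⟨hv.1, by rw [hv.2.1]; exact hn⟩
  have h1 := H.pc.thd v (Or.inr hB)
  rw [hv.2.1] at h1
  have h2 : nb D.G v ⊆ nb (thin D.G D.X.P) v ∪ sV D.X.P n β := by
    intro w hw
    rw [mem_union]
    by_cases h : (thin D.G D.X.P).Adj v w
    · exact Or.inl (mem_nb.2 h)
    · right
      have h3 : (bulk D.G D.X.P).Adj v w := by
        by_contra h4
        exact h ⟨mem_nb.1 hw, h4⟩
      obtain ⟨-, -, q2, q3, q4⟩ := h3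
      have q5 := q4 (by rw [hv.2.1]; exact hn)
      refine mem_sV.2 ⟨q2, by rw [← q3]; exact hv.2.1, ?_⟩
      rw [hv.2.2] at q5
      cases β <;> cases h6 : D.X.P.sd w <;> simp_all
  have h3 := (card_le_card h2).trans (card_union_le _ _)
  rw [H.pc.reg v] at h3
  have h4 : (D.d : ℝ) ≤ (nb (thin D.G D.X.P) v).card + (sV D.X.P n β).card := by
    exact_mod_cast h3
  have h5 : ((nb (thin D.G D.X.P) v).card : ℝ) ≤ (D.sl n).ζ * D.d := h1
  linarith

/-- sizes of the quarters -/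
theorem quarter (H : Hyp k c' D) (n : Fin N) (hn : D.X.P.ty n = Ty.B) (β i : Bool) :
    2 * (Pool.Agent.Work.MP_db9399_xf.qV D.X n β i).card ≤ (sV D.X.P n β).card + 1 ∧
      (sV D.X.P n β).card ≤ 2 * (Pool.Agent.Work.MP_db9399_xf.qV D.X n β i).card + 1 := by
  have e : ∀ β i, (Pool.Agent.Work.MP_db9399_xf.qV D.X n β i).card =
      (qtr (sdn D.X.P n) (ptn D.X.P n) β i).card := by
    intro β i
    refine (card_bij (fun (v : Ts D.X.P n) _ => v.1) ?_ ?_ ?_).symm
    · intro v hv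
      rw [qtr, mem_filter] at hv
      exact mem_qV.2 ⟨⟨v.2.1, v.2.2, hv.2.1⟩, hv.2.2⟩
    · intro v _ w _ h
      exact Subtype.ext h
    · intro v hv
      have hv := mem_qV.1 hv
      exact ⟨⟨v, hv.1.1, hv.1.2.1⟩, by rw [qtr, mem_filter]; exact ⟨mem_univ _, hv.1.2.2, hv.2⟩,
        rfl⟩
  have hs : (sV D.X.P n β).card = (Pool.Agent.Work.MP_db9399_xf.qV D.X n β i).card +
      (Pool.Agent.Work.MP_db9399_xf.qV D.X n β (!i)).card := by
    have h1 := card_filter_add_card_filter_not (s := sV D.X.P n β) (fun v => D.X.P.pt v = i)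
    rw [← h1, Pool.Agent.Work.MP_db9399_xf.qV, Pool.Agent.Work.MP_db9399_xf.qV]
    congr 2
    ext v
    rw [mem_filter, mem_filter]
    cases i <;> cases h : D.X.P.pt v <;> simp
  have hS := H.pc.bS n hn
  have hB := H.pc.bB n hn
  have f : ∀ β i, (Pool.Agent.Work.MP_db9399_xf.qV D.X n β i).card ≤
      (Pool.Agent.Work.MP_db9399_xf.qV D.X n β (!i)).card + 1 := by
    intro β i
    rw [e, e]
    cases β with
    | false => exact hS i
    | true => rw [← hB i, ← hB (!i)]; exact hS i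
  have f1 := f β i
  have f2 := f β (!i)
  rw [Bool.not_not] at f2
  omega

end bad2

section fin
variable {V : Type u} [Fintype V] {N J : ℕ} {k : Con} {c' : ℝ} {D : OD V N J}

/-- a set of good vertices for `b` -/
def GoodB (D : OD V N J) (U : Finset V) (cR : V → ℕ) : Prop :=
  ∀ n β i b, D.X.P.ty n = Ty.B → b < D.d + 2 → ∃ Bd : Finset V,
    (Bd.card : ℝ) ≤ 22 / 1000 * (D.sl n).ζ * D.d ∧
      ∀ v ∈ Pool.Agent.Work.MP_db9399_xf.qV D.X n β i, v ∉ Bd →
        (∀ w, Owd D.X w → D.cN w = b → big D n w → ¬ D.G.Adj v w) →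
        v ∈ D.Av U cR n β i b

theorem g1 {U : Finset V} {cR : V → ℕ} (hG : GoodB D U cR) (n : Fin N) (β i : Bool) (b : ℕ)
    (hn : D.X.P.ty n = Ty.B) (hb : b < D.d + 2)
    (h : ¬ ∃ w, Owd D.X w ∧ D.cN w = b ∧ big D n w) :
    ((Pool.Agent.Work.MP_db9399_xf.qV D.X n β i).card : ℝ) - 22 / 1000 * (D.sl n).ζ * D.d ≤
      ((D.Av U cR n β i b).card : ℝ) := by
  obtain ⟨Bd, h1, h2⟩ := hG n β i b hn hb
  have h3 : Pool.Agent.Work.MP_db9399_xf.qV D.X n β i ⊆ D.Av U cR n β i b ∪ Bd := by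
    intro v hv
    rw [mem_union]
    by_cases hvB : v ∈ Bd
    · exact Or.inr hvB
    · exact Or.inl (h2 v hv hvB fun w hw1 hw2 hw3 _ => h ⟨w, hw1, hw2, hw3⟩)
  have h4 := (card_le_card h3).trans (card_union_le _ _)
  have h5 : ((Pool.Agent.Work.MP_db9399_xf.qV D.X n β i).card : ℝ) ≤
      (D.Av U cR n β i b).card + Bd.card := by exact_mod_cast h4
  linarith

theorem g2 (H : Hyp k c' D) {U : Finset V} {cR : V → ℕ} (hG : GoodB D U cR) (n : Fin N)
    (β i : Bool) (b : ℕ) (hn : D.X.P.ty n = Ty.B) (hb : b < D.d + 2) (w₀ : V)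
    (h0 : Owd D.X w₀) (h1 : D.cN w₀ = b) (h2 : big D n w₀) :
    ((Pool.Agent.Work.MP_db9399_xf.qV D.X n β i \ nb D.G w₀).card : ℝ) -
      22 / 1000 * (D.sl n).ζ * D.d ≤ ((D.Av U cR n β i b).card : ℝ) := by
  obtain ⟨Bd, k1, k2⟩ := hG n β i b hn hb
  have h3 : Pool.Agent.Work.MP_db9399_xf.qV D.X n β i \ nb D.G w₀ ⊆
      D.Av U cR n β i b ∪ Bd := by
    intro v hv
    rw [mem_sdiff] at hv
    rw [mem_union]
    by_cases hvB : v ∈ Bd
    · exact Or.inr hvB
    · refine Or.inl (k2 v hv.1 hvB fun w hw1 hw2 hw3 hw4 => ?_)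
      by_cases he : w = w₀
      · exact hv.2 (mem_nb.2 (he ▸ hw4.symm))
      · exact H.own.big n hn w w₀ hw1 h0 he hw3 h2 (hw2.trans h1.symm)
  have h4 := (card_le_card h3).trans (card_union_le _ _)
  have h5 : ((Pool.Agent.Work.MP_db9399_xf.qV D.X n β i \ nb D.G w₀).card : ℝ) ≤
      (D.Av U cR n β i b).card + Bd.card := by exact_mod_cast h4
  linarith

theorem notmem_pV {n : Fin N} (hn : D.X.P.ty n = Ty.B) {w : V} (hw : Owd D.X w) :
    w ∉ pV D.X.P n := by
  intro h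
  have h := mem_pV.1 h
  rcases hw with hw | hw
  · exact h.1 hw
  · have h1 := hw.2
    rw [h.2, hn] at h1
    exact absurd h1 (by decide)

theorem sub_le_abs1 (a b : ℕ) : ((a - b : ℕ) : ℤ) ≤ |(b : ℤ) - (a : ℤ)| := by
  rcases le_total a b with h | h
  · rw [Nat.sub_eq_zero_of_le h]
    exact abs_nonneg _
  · rw [Nat.cast_sub h, abs_sub_comm]
    exact le_abs_self _

theorem sub_le_abs2 (a b : ℕ) : ((a - b : ℕ) : ℤ) ≤ |(a : ℤ) - (b : ℤ)| := by
  rw [abs_sub_comm]
  exact sub_le_abs1 a b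

theorem need_abs (n : Fin N) (β : Bool) (b : ℕ) :
    (D.nd n β b : ℝ) ≤ |((D.sn n b : ℤ) : ℝ)| := by
  have h : (D.nd n β b : ℤ) ≤ |D.sn n b| := by
    rw [OD.nd, OD.sn, need, sg]
    cases β with
    | false => rw [Bool.not_false]; exact sub_le_abs1 _ _
    | true => rw [Bool.not_true]; exact sub_le_abs2 _ _
  exact_mod_cast h

theorem need_zero (n : Fin N) (b : ℕ) (h : 0 ≤ D.sn n b) : D.nd n false b = 0 := by
  rw [OD.sn, sg] at h
  rw [OD.nd, need, Bool.not_false]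
  omega

/-- the four statements -/
theorem avb_of (H : Hyp k c' D) (hk : k.Ok) {U : Finset V} {cR : V → ℕ}
    {q : Fin N → Bool → Bool → ℕ → ℕ} (hG : GoodB D U cR) (hq : D.Dem q)
    (hd : 1000 ≤ D.d) (hζ0 : ∀ n, 0 < (D.sl n).ζ) (hζ1 : ∀ n, (D.sl n).ζ ≤ 1 / 10 ^ 6) :
    D.AvX U cR q := by
  have hd' : (1000 : ℝ) ≤ D.d := by exact_mod_cast hd
  refine ⟨?_, ?_, ?_, ?_⟩
  · -- a1
    intro n β i b hn hqp
    have hb : b < D.d + 2 := by
      by_contra h
      exact hqp.ne' (hq.pz n β i b (Or.inr (Or.inl (not_lt.1 h))))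
    have z0 := hζ0 n
    have z1 := hζ1 n
    have hs := side_large H n hn β
    have hqr := (quarter H n hn β i).2
    have hqr' : ((sV D.X.P n β).card : ℝ) ≤
        2 * (Pool.Agent.Work.MP_db9399_xf.qV D.X n β i).card + 1 := by exact_mod_cast hqr
    have zd : (D.sl n).ζ * D.d ≤ 1 / 10 ^ 6 * D.d := mul_le_mul_of_nonneg_right z1 (by linarith)
    by_cases hw : ∃ w, Owd D.X w ∧ D.cN w = b ∧ big D n w
    · obtain ⟨w, hw1, hw2, hw3⟩ := hw
      have hg := g2 H hG n β i b hn hb w hw1 hw2 hw3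
      have hnp := notmem_pV hn hw1
      have hrg : D.X.P.rg w ≠ some (n, β) := by
        intro hrg
        have hV := (H.pc.rgT w n β hrg).1
        have hc := H.own.eq w hV
        cases β with
        | true =>
          have h1 := H.sel.rgP n w hrg
          rw [← hc, hw2] at h1
          have h2 := (hq.p2 n hn i b h1).2
          omega
        | false =>
          have h1 := H.sel.rgQ n w hrg
          rw [← hc, hw2] at h1
          have h2 : b ∈ D.P n := by
            rw [OD.P, P1, mem_sdiff, mem_union, mem_union, mem_range]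
            refine ⟨hb, fun h => ?_⟩
            rcases h with (h | h) | h
            · exact h1.2 false h
            · exact h1.2 true h
            · exact h1.1 h
          have h3 := hq.p1 n hn false b h2
          have h4 := H.rg.rgF n w hrg
          rw [← hc, hw2] at h4
          have h5 := need_zero (D := D) n b h4
          cases i <;> omega
      have h1 := H.pc.rgm n hn w hnp β hrg
      have h2 := H.pc.lbw n hn w hnp β i h1
      have h1' : (D.sl n).ζ / 8 * D.d ≤ ((sV D.X.P n β \ nb D.G w).card : ℝ) := h1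
      have h3 : 0 ≤ (D.sl n).ζ * D.d := by positivity
      linarith
    · have hg := g1 hG n β i b hn hb hw
      linarith
  · -- a2
    intro n β i b hn hbP hX
    have hb : b < D.d + 2 := by
      rw [OD.P, P1, mem_sdiff, mem_range] at hbP
      exact hbP.1
    have z0 := hζ0 n
    have z1 := hζ1 n
    have hs := side_large H n hn β
    have hqr := (quarter H n hn β i)
    have hqr1 : ((sV D.X.P n β).card : ℝ) ≤
        2 * (Pool.Agent.Work.MP_db9399_xf.qV D.X n β i).card + 1 := by exact_mod_cast hqr.2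
    have hqr2 : 2 * ((Pool.Agent.Work.MP_db9399_xf.qV D.X n β i).card : ℝ) ≤
        (sV D.X.P n β).card + 1 := by exact_mod_cast hqr.1
    have zd : (D.sl n).ζ * D.d ≤ 1 / 10 ^ 6 * D.d := mul_le_mul_of_nonneg_right z1 (by linarith)
    by_cases hw : ∃ w, Owd D.X w ∧ D.cN w = b ∧ big D n w
    · obtain ⟨w, hw1, hw2, hw3⟩ := hw
      have hg := g2 H hG n β i b hn hb w hw1 hw2 hw3
      have hnp := notmem_pV hn hw1
      have key : ((sV D.X.P n β).card : ℝ) / 400 ≤ ((sV D.X.P n β \ nb D.G w).card : ℝ) := by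
        rcases hw1 with hV | hN
        · have hnc : ¬ Cvr D.G D.X D.d n β w := by
            intro hcv
            have h1 := H.rg.cvt n β w hcv
            rw [← H.own.eq w hV, hw2] at h1
            have h2 := need_abs (D := D) n β b
            have h3 := hk.XC
            have h4 : (D.nd n β b : ℝ) ≤ k.X1 := h2.trans (h1.trans h3)
            have h5 : D.nd n β b ≤ k.X1 := by exact_mod_cast h4
            rw [H.X1] at hX
            omega
          have h1 : (D.d : ℝ) / 200 ≤ ((sV D.X.P n β \ nb D.G w).card : ℝ) := by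
            by_contra h
            exact hnc ⟨hV, hn, not_le.1 h⟩
          have h2 : ((sV D.X.P n β).card : ℝ) - D.d ≤ ((sV D.X.P n β \ nb D.G w).card : ℝ) := by
            have h3 := le_card_sdiff (nb D.G w) (sV D.X.P n β)
            rw [H.pc.reg w] at h3
            have h4 : (sV D.X.P n β).card ≤ (sV D.X.P n β \ nb D.G w).card + D.d := by omega
            have h5 : ((sV D.X.P n β).card : ℝ) ≤
              (sV D.X.P n β \ nb D.G w).card + D.d := by exact_mod_cast h4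
            linarith
          rcases le_total ((sV D.X.P n β).card : ℝ) (2 * D.d) with h3 | h3 <;> linarith
        · have h1 := H.pc.thd w (Or.inl hN)
          have h2 : ((nb (thin D.G D.X.P) w).card : ℝ) ≤ 1 / 10 ^ 6 * D.d := by
            refine h1.trans (mul_le_mul_of_nonneg_right ?_ (by linarith))
            exact hζ1 (D.X.P.pc w)
          have h3 : sV D.X.P n β ⊆ (sV D.X.P n β \ nb D.G w) ∪ nb (thin D.G D.X.P) w := by
            intro v hv
            rw [mem_union]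
            by_cases h : v ∈ nb D.G w
            · exact Or.inr (mem_nb.2 (thin_O hn (sV_sub n β hv) (Or.inr hN)
                (mem_nb.1 h).symm).symm)
            · exact Or.inl (mem_sdiff.2 ⟨hv, h⟩)
          have h4 := (card_le_card h3).trans (card_union_le _ _)
          have h5 : ((sV D.X.P n β).card : ℝ) ≤
              (sV D.X.P n β \ nb D.G w).card + (nb (thin D.G D.X.P) w).card := by
            exact_mod_cast h4
          linarith
      have h1 : (D.S (D.X.sc n)).ζ / 8 * D.d ≤ ((sV D.X.P n β \ nb D.G w).card : ℝ) := by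
        have : (D.sl n).ζ / 8 * D.d ≤ ((sV D.X.P n β \ nb D.G w).card : ℝ) := by linarith
        exact this
      have h2 := H.pc.lbw n hn w hnp β i h1
      linarith
    · have hg := g1 hG n β i b hn hb hw
      linarith
  · -- a3
    intro n β i b hn hb hsp
    have z0 := hζ0 n
    have hw : ¬ ∃ w, Owd D.X w ∧ D.cN w = b ∧ big D n w := by
      rintro ⟨w, hw1, hw2, hw3⟩
      apply hsp
      rw [OD.Spc, mem_filter, mem_range]
      exact ⟨hb, w, hw1, hw2, hw3⟩
    have hg := g1 hG n β i b hn hb hw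
    have h3 : 0 ≤ (D.sl n).ζ * D.d := by positivity
    linarith
  · intro n hn
    exact sp_card H n hn (hζ0 n) (by omega)

end fin

/-- constants -/
noncomputable def Cc (k : Con) : ℝ := 1 + 250 * k.C + 5000 * k.M * k.C + k.M + 300

theorem Cc_pos {k : Con} (hk : k.Ok) : 0 < Cc k := by
  have := hk.C1
  unfold Cc
  positivity

theorem ev_small {J : ℕ} (S : Fin J → Scl) (c' : ℝ) (hS : ∀ s, 0 < (S s).ζ) (hc : 0 < c') :
    ∀ᶠ d : ℕ in Filter.atTop, ∀ s : Fin J,
      2 + (d : ℝ) ^ (1 - c' / 2) ≤ (S s).ζ / 1000 * d := by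
  rw [Filter.eventually_all]
  intro s
  have hs := hS s
  have t1 : Filter.Tendsto (fun d : ℕ => (d : ℝ) ^ (-(c' / 2))) Filter.atTop (nhds 0) :=
    (tendsto_rpow_neg_atTop (by positivity)).comp tendsto_natCast_atTop_atTop
  have t2 : Filter.Tendsto (fun d : ℕ => (d : ℝ)) Filter.atTop Filter.atTop :=
    tendsto_natCast_atTop_atTop
  filter_upwards [t1.eventually_le_const (show (0 : ℝ) < (S s).ζ / 2000 by positivity),
    t2.eventually_ge_atTop (max 1 (4000 / (S s).ζ))] with d h1 h2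
  have h3 : (1 : ℝ) ≤ d := (le_max_left _ _).trans h2
  have h4 : 4000 / (S s).ζ ≤ (d : ℝ) := (le_max_right _ _).trans h2
  rw [div_le_iff₀ hs] at h4
  have h5 : (d : ℝ) ^ (1 - c' / 2) = d * (d : ℝ) ^ (-(c' / 2)) := by
    rw [sub_eq_add_neg, Real.rpow_add (by linarith), Real.rpow_one]
  have h6 : (d : ℝ) * (d : ℝ) ^ (-(c' / 2)) ≤ d * ((S s).ζ / 2000) :=
    mul_le_mul_of_nonneg_left h1 (by linarith)
  rw [h5]
  nlinarith

/-- AVB -/
theorem stmt_AVB : Stmt_AVB.{u} := by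
  intro k hk
  have hCc := Cc_pos hk
  refine ⟨⟨fun _ => 1, fun _ _ => 1, fun _ _ _ => 1, fun _ _ _ _ => 1 / 10 ^ 6,
    fun _ _ _ _ ζ => min 1 ((ζ / (1000 * Cc k)) ^ 2)⟩, ⟨fun _ _ => one_pos,
      fun _ _ _ _ => one_pos, fun _ _ _ _ _ _ => one_pos, fun _ _ _ _ _ _ _ _ => by positivity,
      fun _ _ _ _ ζ _ _ _ _ hζ => lt_min one_pos (by positivity)⟩, ?_⟩
  intro J S c' hS hc hc2
  obtain ⟨d1, hd1⟩ := Filter.eventually_atTop.1 (ev_small S c' (fun s => (hS s).ζ.1) hc)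
  refine ⟨max 1000 d1, ?_⟩
  intro V _ N D hd hSD H U cR q hR hq
  have hd2 : 1000 ≤ D.d := (le_max_left _ _).trans hd
  have hd3 : d1 ≤ D.d := (le_max_right _ _).trans hd
  have hsl : ∀ n, D.sl n = S (D.X.sc n) := fun n => by rw [OD.sl, hSD]
  have hζ0 : ∀ n, 0 < (D.sl n).ζ := fun n => by rw [hsl]; exact (hS _).ζ.1
  have hζ1 : ∀ n, (D.sl n).ζ ≤ 1 / 10 ^ 6 := fun n => by rw [hsl]; exact (hS _).ζ.2
  refine avb_of H hk ?_ hq hd2 hζ0 hζ1
  intro n β i b hn hb
  have hθ : 0 < (D.sl n).θ := by rw [hsl]; exact (hS _).θ.1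
  have hθ2 : (D.sl n).θ ≤ min 1 (((D.sl n).ζ / (1000 * Cc k)) ^ 2) := by
    rw [hsl]
    exact (hS _).θ.2
  have hz := hζ0 n
  have hθ3 : (D.sl n).θ ≤ 1 := hθ2.trans (min_le_left _ _)
  have hθ4 : Real.sqrt (D.sl n).θ ≤ (D.sl n).ζ / (1000 * Cc k) := by
    rw [Real.sqrt_le_left (by positivity)]
    exact hθ2.trans (min_le_right _ _)
  have hθ5 : Real.sqrt (D.sl n).θ * Cc k ≤ (D.sl n).ζ / 1000 := by
    rw [le_div_iff₀ (by positivity)] at hθ4
    linarith
  have hθ6 : (D.sl n).θ ≤ Real.sqrt (D.sl n).θ := by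
    have h1 : Real.sqrt (D.sl n).θ ≤ 1 := by
      rw [Real.sqrt_le_left (by norm_num)]
      simpa using hθ3
    calc (D.sl n).θ = Real.sqrt (D.sl n).θ * Real.sqrt (D.sl n).θ :=
          (Real.mul_self_sqrt hθ.le).symm
      _ ≤ Real.sqrt (D.sl n).θ * 1 := mul_le_mul_of_nonneg_left h1 (Real.sqrt_nonneg _)
      _ = _ := mul_one _
  have hd4 := hd1 D.d hd3 (D.X.sc n)
  rw [← hsl] at hd4
  obtain ⟨Bd, h1, h2⟩ := bad_all H n hn hθ (by omega) hk.C1 hR β i b hb
  refine ⟨Bd, ?_, h2⟩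
  refine h1.trans ?_
  have hdp : (0 : ℝ) < D.d := by
    have : 0 < D.d := by omega
    exact_mod_cast this
  have e1 : 300 * (D.sl n).θ * D.d + (1 + 250 * k.C + 5000 * k.M * k.C + k.M) *
      (Real.sqrt (D.sl n).θ * D.d) ≤ (D.sl n).ζ / 1000 * D.d := by
    have e2 : 300 * (D.sl n).θ * D.d ≤ 300 * Real.sqrt (D.sl n).θ * D.d :=
      mul_le_mul_of_nonneg_right (by linarith) hdp.le
    have e3 : Real.sqrt (D.sl n).θ * Cc k * D.d ≤ (D.sl n).ζ / 1000 * D.d :=
      mul_le_mul_of_nonneg_right hθ5 hdp.le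
    have e4 : Real.sqrt (D.sl n).θ * Cc k * D.d = 300 * Real.sqrt (D.sl n).θ * D.d +
        (1 + 250 * k.C + 5000 * k.M * k.C + k.M) * (Real.sqrt (D.sl n).θ * D.d) := by
      unfold Cc
      ring
    linarith
  linarith

end Pool.Agent.Work.MP_db9399_oc_helper70
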